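import Pool.Agent.Helper2.NNQ.Stm

/-!
# Assembly of the zero-one law for `(n + θ)^n` and `n^(n + θ)` from the parts
-/

set_option autoImplicit false

open MeasureTheory Filter Topology Finset
open scoped Real

namespace Pool.Agent.Helper2.NNQ

lemma tlog : Tendsto (fun n : ℕ => Real.log n) atTop atTop :=
  Real.tendsto_log_atTop.comp tendsto_natCast_atTop_atTop

lemma tnlog : Tendsto (fun n : ℕ => (n : ℝ) * Real.log n) atTop atTop :=
  tendsto_natCast_atTop_atTop.atTop_mul_atTop₀ tlog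

/-- lower bound of the measure for good families -/
def S_LG : Prop := ∃ c : ℝ, 0 < c ∧ ∀ (k : ℤ) (g : ℕ → ℝ → ℝ) (σ : ℕ → ℝ) (A B : ℝ), Good g σ A B →
  ∃ n₀ : ℕ, ∀ n, n₀ ≤ n → c * (B - A) * (1 / ((n : ℝ) * Real.log n)) ≤ volume.real (PP (g n) k ∩ Set.Icc A B)

theorem t_LG (h : S_LP) : S_LG := by
  obtain ⟨c, hc, h⟩ := h
  refine ⟨c / 2, by positivity, fun k g σ A B hG => ?_⟩
  have hAB := hG.lt
  obtain ⟨n₀, hn₀, h1, -⟩ := hG.ev
  obtain ⟨Y₀, hY⟩ := h ((B - A) / 2) k (by linarith)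
  obtain ⟨n1, hn1⟩ := eventually_atTop.1 (tnlog.eventually_ge_atTop (2 * |Y₀| + 1))
  refine ⟨max n₀ n1, fun n hn => ?_⟩
  obtain ⟨hR, hs, hb⟩ := h1 n (by omega)
  have h2 := hn1 n (by omega)
  have h3 := le_abs_self Y₀
  have h3' := abs_nonneg Y₀
  have hA := hb A ⟨le_rfl, hAB.le⟩
  have hB := hb B ⟨hAB.le, le_rfl⟩
  have h4 := hY (g n) (σ n) A B hR hAB (by nlinarith) (by linarith [hA.1])
  refine le_trans ?_ h4
  have h5 : 0 < g n B := by linarith [hB.1]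
  have h6 : (0 : ℝ) < n * Real.log n := by linarith
  rw [mul_one_div, div_le_div_iff₀ h6 h5]
  have h7 : 0 < c * (B - A) := mul_pos hc (by linarith)
  nlinarith [mul_le_mul_of_nonneg_left hB.2 h7.le]

lemma meas {g : ℝ → ℝ} (hg : Measurable g) (k : ℤ) : MeasurableSet (PP g k) := by
  have h1 : Measurable (fun x : ℝ => ⌊Real.exp (g x)⌋) := by
    apply Int.measurable_floor.comp
    fun_prop
  exact h1 (MeasurableSet.of_discrete (s := {z : ℤ | (z + k).toNat.Prime}))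

lemma meas_sub {g : ℕ → ℝ → ℝ} (hg : ∀ n, Measurable (g n)) (S : Set ℕ) (k : ℤ) (n : ℕ) :
    MeasurableSet {x | n ∈ S ∧ x ∈ PP (g n) k} := by
  by_cases h : n ∈ S
  · simp only [h, true_and]
    exact meas (hg n) k
  · simp [h]

lemma wt_nonneg (S : Set ℕ) (n : ℕ) : 0 ≤ wt S n := by
  unfold wt
  by_cases h : n ∈ S
  · rw [Set.indicator_of_mem h]
    have : 0 ≤ Real.log n := Real.log_natCast_nonneg n
    positivity
  · rw [Set.indicator_of_notMem h]

lemma wp_nonneg (S : Set ℕ) (m n : ℕ) : 0 ≤ wp S m n := by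
  unfold wp
  split_ifs with h
  · have h1 : 0 ≤ Real.log n := Real.log_natCast_nonneg n
    have h2 : 0 ≤ Real.log m := Real.log_natCast_nonneg m
    have h3 : (0 : ℝ) ≤ (n : ℝ) - m := by
      have : (m : ℝ) ≤ n := by exact_mod_cast h.2.1.le
      linarith
    positivity
  · exact le_rfl

/-- good around every point -/
def Loc (g : ℕ → ℝ → ℝ) (σ : ℕ → ℝ) : Prop := ∀ u : ℝ, ∃ r₀ : ℝ, 0 < r₀ ∧ ∀ r : ℝ, 0 < r → r < r₀ →
  Good g σ (u - r) (u + r)

lemma div_part (H1 : S_U1) (H2 : S_U2) (H3 : S_LP) (H4 : S_COMB) (H5 : S_KS2)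
    {g : ℕ → ℝ → ℝ} {σ : ℕ → ℝ} (hL : Loc g σ) (hm : ∀ n, Measurable (g n)) (k : ℤ) (S : Set ℕ)
    (hS : ¬ Summable (wt S)) :
    ∀ᵐ x : ℝ, {n : ℕ | n ∈ S ∧ x ∈ PP (g n) k}.Infinite := by
  obtain ⟨C1, hC1, h1⟩ := H1
  obtain ⟨C2, hC2, h2⟩ := H2
  obtain ⟨C3, hC3, h3⟩ := t_LG H3
  obtain ⟨C4, hC4, h4⟩ := H4
  have key := H5 (fun n => {x | n ∈ S ∧ x ∈ PP (g n) k}) (wt S) (wp S) C3 (max C1 C2) C4 hC3
    (lt_max_of_lt_left hC1) hC4 (meas_sub hm S k) (wt_nonneg S) hS (wp_nonneg S) (h4 S) ?_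
  · filter_upwards [key] with x hx
    have := hx
    rw [Nat.frequently_atTop_iff_infinite] at this
    exact this
  · intro u
    obtain ⟨r₀, hr₀, hr⟩ := hL u
    refine ⟨r₀, hr₀, fun r hr0 hr1 => ?_⟩
    have hG := hr r hr0 hr1
    have h2r : (u + r) - (u - r) = 2 * r := by ring
    obtain ⟨n1, hn1⟩ := h1 k g σ (u - r) (u + r) hG
    obtain ⟨n2, hn2⟩ := h2 k g σ (u - r) (u + r) hG
    obtain ⟨n3, hn3⟩ := h3 k g σ (u - r) (u + r) hG
    refine ⟨max (max n1 n2) (max n3 3), ?_, ?_⟩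
    · intro n hn
      have g1 := hn1 n (by omega)
      have g3 := hn3 n (by omega)
      rw [h2r] at g1 g3
      unfold wt
      have hl : 0 ≤ Real.log n := Real.log_natCast_nonneg n
      by_cases hnS : n ∈ S
      · simp only [Set.indicator_of_mem hnS, hnS, true_and, Set.ofPred_mem_eq]
        refine ⟨g3, g1.trans ?_⟩
        refine mul_le_mul_of_nonneg_right ?_ (by positivity)
        exact mul_le_mul_of_nonneg_right (le_max_left _ _) (by linarith)
      · simp [Set.indicator_of_notMem hnS, hnS]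
    · intro m n hmn0 hmn
      have g2 := hn2 m n (by omega) hmn
      rw [h2r] at g2
      unfold wp
      have hm3 : 3 ≤ m := by omega
      by_cases hnS : n ∈ S
      · by_cases hmS : m ∈ S
        · simp only [hnS, hmS, true_and, Set.ofPred_mem_eq, hm3, hmn, and_self, if_true]
          refine g2.trans ?_
          have hl : 0 ≤ Real.log n := Real.log_natCast_nonneg n
          have hl' : 0 ≤ Real.log m := Real.log_natCast_nonneg m
          have h3 : (0 : ℝ) ≤ (n : ℝ) - m := by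
            have : (m : ℝ) ≤ n := by exact_mod_cast hmn.le
            linarith
          refine mul_le_mul_of_nonneg_right ?_ (by positivity)
          exact mul_le_mul_of_nonneg_right (le_max_right _ _) (by linarith)
        · simp [hmS]
      · simp [hnS]

lemma conv_part (H1 : S_U1)
    {g : ℕ → ℝ → ℝ} {σ : ℕ → ℝ} (hL : Loc g σ) (hm : ∀ n, Measurable (g n)) (k : ℤ) (S : Set ℕ)
    (hS : Summable (wt S)) :
    ∀ᵐ x : ℝ, {n : ℕ | n ∈ S ∧ x ∈ PP (g n) k}.Finite := by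
  obtain ⟨C1, hC1, h1⟩ := H1
  rw [ae_iff]
  refine measure_null_of_locally_null _ fun u _ => ?_
  obtain ⟨r₀, hr₀, hr⟩ := hL u
  have hG := hr (r₀ / 2) (by linarith) (by linarith)
  set r := r₀ / 2 with hrdef
  have hr0 : 0 < r := by linarith
  obtain ⟨n1, hn1⟩ := h1 k g σ (u - r) (u + r) hG
  have hsum : Summable (fun n : ℕ => volume.real ({x | n ∈ S ∧ x ∈ PP (g n) k} ∩ Set.Icc (u - r) (u + r))) := by
    refine summable_of_isBigO_nat hS ?_
    refine Asymptotics.IsBigO.of_bound (C1 * (2 * r)) ?_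
    filter_upwards [eventually_ge_atTop n1] with n hnn
    rw [Real.norm_of_nonneg measureReal_nonneg, Real.norm_of_nonneg (wt_nonneg S n)]
    unfold wt
    by_cases hnS : n ∈ S
    · rw [Set.indicator_of_mem hnS]
      simp only [hnS, true_and, Set.ofPred_mem_eq]
      refine (hn1 n hnn).trans ?_
      have h2r : (u + r) - (u - r) = 2 * r := by ring
      rw [h2r]
    · rw [Set.indicator_of_notMem hnS]
      simp [hnS]
  have hfin : ∀ n : ℕ, volume ({x | n ∈ S ∧ x ∈ PP (g n) k} ∩ Set.Icc (u - r) (u + r)) ≠ ⊤ := fun n =>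
    ((measure_mono Set.inter_subset_right).trans_lt measure_Icc_lt_top).ne
  have hsum' : ∑' n : ℕ, (volume.restrict (Set.Icc (u - r) (u + r))) {x | n ∈ S ∧ x ∈ PP (g n) k} ≠ ⊤ := by
    have e1 : ∀ n : ℕ, (volume.restrict (Set.Icc (u - r) (u + r))) {x | n ∈ S ∧ x ∈ PP (g n) k} =
        ENNReal.ofReal (volume.real ({x | n ∈ S ∧ x ∈ PP (g n) k} ∩ Set.Icc (u - r) (u + r))) := by
      intro n
      rw [Measure.restrict_apply (meas_sub hm S k n), ofReal_measureReal (hfin n)]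
    simp only [e1]
    exact hsum.tsum_ofReal_ne_top
  have hae := ae_finite_setOfPred_mem hsum'
  rw [ae_restrict_iff' measurableSet_Icc, ae_iff] at hae
  refine ⟨{x | ¬ {n : ℕ | n ∈ S ∧ x ∈ PP (g n) k}.Finite} ∩ Set.Icc (u - r) (u + r), ?_, ?_⟩
  · refine inter_mem_nhdsWithin _ (Icc_mem_nhds (by linarith) (by linarith))
  · refine measure_mono_null ?_ hae
    intro x hx
    simp only [Set.mem_inter_iff, Set.mem_ofPred_eq, Classical.not_imp] at hx ⊢
    exact ⟨hx.2, hx.1⟩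

lemma law (H1 : S_U1) (H2 : S_U2) (H3 : S_LP) (H4 : S_COMB) (H5 : S_KS2)
    {g : ℕ → ℝ → ℝ} {σ : ℕ → ℝ} (hL : Loc g σ) (hm : ∀ n, Measurable (g n)) (S : Set ℕ) :
    ∀ᵐ x : ℝ, ∀ k : ℤ, ({n : ℕ | n ∈ S ∧ x ∈ PP (g n) k}.Infinite ↔ ¬ Summable (wt S)) := by
  refine ae_all_iff.2 fun k => ?_
  by_cases hS : Summable (wt S)
  · filter_upwards [conv_part H1 hL hm k S hS] with x hx
    exact ⟨fun h => absurd hx h, fun h => absurd hS h⟩
  · filter_upwards [div_part H1 H2 H3 H4 H5 hL hm k S hS] with x hx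
    exact ⟨fun _ => hS, fun _ => hx⟩

lemma expA (n : ℕ) (x : ℝ) (h : 0 < (n : ℝ) + x) : Real.exp (gA n x) = (n + x) ^ n := by
  unfold gA
  rw [Real.exp_nat_mul, Real.exp_log h]

lemma expB (n : ℕ) (x : ℝ) (h : 0 < n) : Real.exp (gB n x) = (n : ℝ) ^ ((n : ℝ) + x) := by
  unfold gB
  rw [Real.rpow_def_of_pos (by exact_mod_cast h), mul_comm]

/-- two sets of natural numbers that agree from some point on are infinite simultaneously -/
lemma inf_congr {P Q : ℕ → Prop} (n₀ : ℕ) (h : ∀ n, n₀ ≤ n → (P n ↔ Q n)) :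
    {n | P n}.Infinite ↔ {n | Q n}.Infinite := by
  rw [← Nat.frequently_atTop_iff_infinite, ← Nat.frequently_atTop_iff_infinite]
  exact frequently_congr (eventually_atTop.2 ⟨n₀, h⟩)

theorem main (H1 : S_U1) (H2 : S_U2) (H3 : S_LP) (H4 : S_COMB) (H5 : S_KS2) (H6 : S_FAM2) (S : Set ℕ) :
    (∀ᵐ θ : ℝ, ∀ k : ℤ, ({n : ℕ | n ∈ S ∧ (⌊(n + θ) ^ n⌋ + k).toNat.Prime}.Infinite ↔ ¬ Summable (wt S))) ∧
    (∀ᵐ θ : ℝ, ∀ k : ℤ, ({n : ℕ | n ∈ S ∧ (⌊(n : ℝ) ^ (n + θ)⌋ + k).toNat.Prime}.Infinite ↔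
      ¬ Summable (wt S))) := by
  constructor
  · have hL : Loc gA (fun _ => 2 / 3) := fun u => by
      obtain ⟨r₀, hr₀, hr⟩ := H6 u
      exact ⟨r₀, hr₀, fun r h1 h2 => (hr r h1 h2).1⟩
    have hm : ∀ n, Measurable (gA n) := fun n => by unfold gA; fun_prop
    filter_upwards [law H1 H2 H3 H4 H5 hL hm S] with θ hθ k
    rw [← hθ k]
    obtain ⟨n₀, hn₀⟩ := exists_nat_gt (-θ)
    refine inf_congr n₀ fun n hn => ?_
    have : (n₀ : ℝ) ≤ n := by exact_mod_cast hn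
    show _ ↔ n ∈ S ∧ (⌊Real.exp (gA n θ)⌋ + k).toNat.Prime
    rw [expA n θ (by linarith)]
  · have hL : Loc gB (fun n => Real.log n) := fun u => by
      obtain ⟨r₀, hr₀, hr⟩ := H6 u
      exact ⟨r₀, hr₀, fun r h1 h2 => (hr r h1 h2).2⟩
    have hm : ∀ n, Measurable (gB n) := fun n => by unfold gB; fun_prop
    filter_upwards [law H1 H2 H3 H4 H5 hL hm S] with θ hθ k
    rw [← hθ k]
    refine inf_congr 1 fun n hn => ?_
    show _ ↔ n ∈ S ∧ (⌊Real.exp (gB n θ)⌋ + k).toNat.Prime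
    rw [expB n θ (by omega)]

end Pool.Agent.Helper2.NNQ
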