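import Mathlib

/-!
# `n^n + c^3` is composite for `c ≡ 5 (mod 6)`
-/

set_option autoImplicit false

namespace Pool.Agent.Helper2.NNQ

theorem cub (c : ℕ) (hc : c % 6 = 5) (n : ℕ) : ¬ (n ^ n + c ^ 3).Prime := by
  intro hp
  have hc5 : 5 ≤ c := by omega
  have hc3 : 125 ≤ c ^ 3 := by
    calc 125 = 5 ^ 3 := by norm_num
      _ ≤ c ^ 3 := Nat.pow_le_pow_left hc5 3
  have hcodd : Odd (c ^ 3) := (Nat.odd_iff.2 (by omega)).pow
  rcases Nat.eq_zero_or_pos n with rfl | hn
  · rw [pow_zero] at hp
    have h2 : 2 ∣ 1 + c ^ 3 := (odd_one.add_odd hcodd).two_dvd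
    have := (Nat.prime_dvd_prime_iff_eq Nat.prime_two hp).1 h2
    omega
  · rcases Nat.even_or_odd n with he | ho
    · by_cases h3 : 3 ∣ n
      · obtain ⟨m, rfl⟩ := h3
        have hm : 0 < m := by omega
        have e : (3 * m) ^ (3 * m) = ((3 * m) ^ m) ^ 3 := by rw [← pow_mul, mul_comm m 3]
        rw [e] at hp
        set a := (3 * m) ^ m with ha
        have ha2 : 2 ≤ a := by
          calc 2 ≤ 3 * m := by omega
            _ = (3 * m) ^ 1 := (pow_one _).symm
            _ ≤ a := Nat.pow_le_pow_right (by omega) hm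
        have hd : a + c ∣ a ^ 3 + c ^ 3 := by
          have := Odd.nat_add_dvd_pow_add_pow a c (n := 3) (by decide)
          exact this
        rcases (Nat.dvd_prime hp).1 hd with h1 | h1
        · omega
        · have h4 : 2 * 2 * a ≤ a ^ 3 := by
            rw [pow_succ, pow_two]
            exact Nat.mul_le_mul_right _ (Nat.mul_le_mul ha2 ha2)
          have h5 : 5 * 5 * c ≤ c ^ 3 := by
            rw [pow_succ, pow_two]
            exact Nat.mul_le_mul_right _ (Nat.mul_le_mul hc5 hc5)
          omega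
      · obtain ⟨m, hm⟩ := he
        have e : n ^ n = (n ^ m) ^ 2 := by
          rw [← pow_mul]
          congr 1
          omega
        have h31 : (n ^ m) % 3 = 1 ∨ (n ^ m) % 3 = 2 := by
          have : ¬ 3 ∣ n ^ m := fun h => h3 (Nat.prime_three.dvd_of_dvd_pow h)
          omega
        have h32 : (n ^ n) % 3 = 1 := by
          rw [e, Nat.pow_mod]
          rcases h31 with h | h <;> rw [h]
        have h33 : c ^ 3 % 3 = 2 := by
          rw [Nat.pow_mod]
          have : c % 3 = 2 := by omega
          rw [this]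
        have h34 : 3 ∣ n ^ n + c ^ 3 := by omega
        have := (Nat.prime_dvd_prime_iff_eq Nat.prime_three hp).1 h34
        omega
    · have h2 : 2 ∣ n ^ n + c ^ 3 := (ho.pow.add_odd hcodd).two_dvd
      have := (Nat.prime_dvd_prime_iff_eq Nat.prime_two hp).1 h2
      omega

end Pool.Agent.Helper2.NNQ
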