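import Pool.Agent.Helper2.NNQ.Stm

/-!
# Hausdorff dimension one: statements of the parts (MP_a70bdc_nt)
-/

set_option autoImplicit false

open MeasureTheory Filter Topology Finset
open scoped Real

namespace Pool.Agent.Helper2.NNQ

/-- FF, from COVER and LP.  Put `f = exp ∘ g n`, `σ = 2/3`, `a = x - ρ`, `b = x + ρ`; `f(b) ≤ exp(2 σ · 2 ρ) f(a) ≤ 2 f(a)`,
`r = 1 / (8 σ f(b))`.  For an integer `v` with `v + k` prime and `f(a) ≤ v`, `v + 1 ≤ f(b)` let `J_v = [a_v, b_v)`,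
`f(a_v) = v`, `f(b_v) = v + 1`; its length is between `1 / (2 σ (v+1)) ≥ 4 r` and `1 / (σ f(a)) ≤ 16 r`.  `F` = the set
of the midpoints `y_v`; the balls of radius `r` lie in `J_v`, so in `PP (g n) k`.  The `J_v` are disjoint: distances
`≥ 4 r`.  Lower bound of `F.card`: by LP the measure of `PP ∩ [a,b]` is at least `c' ρ / (n log n)`, and this set is covered by
the `J_v` and two further intervals of length `≤ 16 r`.  Upper bound for `[p,q]`: the `J_v` with `y_v ∈ [p,q]` lie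
in `[p - 16 r, q + 16 r] ∩ [a,b]`; enlarge to an interval inside `[a,b]` of length at most `2 (q - p)` (and at least
`min (q-p) (b-a)`) and apply COVER: `F.card * 4 r ≤ C' (q-p) / log (min 1 (σ (q-p)) f(a))`, the logarithm is `≥ (n log n) / 8`. -/
def S_FF : Prop := ∃ c C : ℝ, 0 < c ∧ 0 < C ∧ ∀ (k : ℤ) (g : ℕ → ℝ → ℝ) (A B : ℝ), Good g (fun _ => 2 / 3) A B →
  ∀ x ρ : ℝ, 0 < ρ → ρ ≤ 1 / 4 → A ≤ x - ρ → x + ρ ≤ B → ∃ n₀ : ℕ, ∀ n, n₀ ≤ n → ∃ (r : ℝ) (F : Finset ℝ),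
    0 < r ∧ r ≤ Real.exp (-(1 / 2 * ((n : ℝ) * Real.log n))) ∧
    (∀ y ∈ F, Metric.closedBall y r ⊆ Metric.closedBall x ρ ∧ Metric.closedBall y r ⊆ PP (g n) k) ∧
    (∀ y ∈ F, ∀ z ∈ F, y ≠ z → 4 * r ≤ |y - z|) ∧
    c * ρ / (r * ((n : ℝ) * Real.log n)) ≤ F.card ∧
    ∀ p q : ℝ, Real.exp (-(1 / 4 * ((n : ℝ) * Real.log n))) ≤ q - p →
      ((F.filter (fun y => p ≤ y ∧ y ≤ q)).card : ℝ) ≤ C * (q - p) / (r * ((n : ℝ) * Real.log n))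

/-- STEP, from FF: the hypothesis of `Pool.Agent.H438R2.nest` (`Pool/Agent/H438R2/Nest.lean` in the starting files).
`κ = min (1/2) (c / (12 C))` or so.  `u < r`: two balls of `G` would have centres at distance `≤ u + 2 r < 4 r`.
`exp(-(n log n)/4) ≤ u ≤ ρ`: `G` lies in an interval of length `u + 2 r ≤ 3 u`, so `G.card ≤ 3 C u / (r n log n) ≤
(3 C / c) (u / ρ) F.card`, and `u/ρ ≤ (u/ρ)^s`.  `r ≤ u < exp(-(n log n)/4)`: by the distances `G.card ≤ 3 u / (4 r) + 1 ≤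
2 u / r`, to compare with `c ρ / (r n log n) / (4 κ) (u/ρ)^s`: `(u/ρ)^(1-s) n log n → 0` uniformly.  Also
`4 (ρ / r)^s ≤ F.card` for large `n`, since `(ρ / r)^(1-s) ≥ ρ^(1-s) exp((1-s)(n log n)/2)`. -/
def S_STEP : Prop := ∀ s : ℝ, 0 < s → s < 1 → ∃ κ : ℝ, 0 < κ ∧ κ < 1 ∧
  ∀ (k : ℤ) (g : ℕ → ℝ → ℝ) (A B : ℝ), Good g (fun _ => 2 / 3) A B →
  ∀ x ρ : ℝ, 0 < ρ → ρ ≤ 1 / 4 → A ≤ x - ρ → x + ρ ≤ B → ∀ δ : ℝ, 0 < δ → ∃ n₀ : ℕ, ∀ n, n₀ ≤ n →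
  ∃ (r : ℝ) (F : Finset ℝ), 0 < r ∧ r ≤ δ ∧
    (∀ y ∈ F, Metric.closedBall y r ⊆ Metric.closedBall x ρ ∧ Metric.closedBall y r ⊆ PP (g n) k) ∧
    4 * (ρ / r) ^ s ≤ F.card ∧
    ∀ (U : Set ℝ) (u : ℝ), 0 < u → (∀ x ∈ U, ∀ y ∈ U, dist x y ≤ u) →
      ∀ (G : Finset ℝ), G ⊆ F → (∀ y ∈ G, (U ∩ Metric.closedBall y r).Nonempty) →
        (u < r → G.card ≤ 1) ∧
        (r ≤ u → u ≤ ρ → (G.card : ℝ) ≤ F.card / (4 * κ) * (u / ρ) ^ s)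

/-- DIM, from STEP by `nest`: `V j = ⋃ n ∈ S, n ≥ j, PP (g n) (k_j)` with a sequence `k_j` that takes every integer
infinitely often; `Rg` = the pairs `(x, ρ)` with `0 < ρ ≤ 1/4` and `[x - ρ, x + ρ] ⊆ [A,B]`, where `[A,B]` is one
good interval inside `(a,b)`; `μH[s] ≠ 0` for every `s < 1`, so the dimension is at least one. -/
def S_DIM : Prop := ∀ g : ℕ → ℝ → ℝ,
  (∀ u : ℝ, ∃ r₀ : ℝ, 0 < r₀ ∧ ∀ r : ℝ, 0 < r → r < r₀ → Good g (fun _ => 2 / 3) (u - r) (u + r)) →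
  ∀ (S : Set ℕ), S.Infinite → ∀ a b : ℝ, a < b →
    dimH ({x : ℝ | ∀ k : ℤ, {n : ℕ | n ∈ S ∧ x ∈ PP (g n) k}.Infinite} ∩ Set.Ioo a b) = 1

end Pool.Agent.Helper2.NNQ
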