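import Pool.Agent.Helper2.NNQ.FarStm

/-!
# Parameters `θ` with `(n + θ)^n` far from all primes: assembly
-/

set_option autoImplicit false

open MeasureTheory Filter Topology Finset

namespace Pool.Agent.Helper2.NNF

lemma tKK : Tendsto KK atTop atTop := by
  unfold KK
  have h : Tendsto (Nat.log 2) atTop atTop := by
    refine tendsto_atTop.2 fun b => ?_
    filter_upwards [eventually_ge_atTop (2 ^ b)] with n hn
    exact Nat.le_log_of_pow_le (by norm_num) hn
  exact h.comp h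

lemma QQ_two (n : ℕ) : 2 ≤ QQ n := by
  unfold QQ
  have : 2 ≤ (2 * KK n + 2).factorial := (Nat.self_le_factorial _).trans' (by omega)
  exact_mod_cast this

lemma rr_le (n : ℕ) : rr n ≤ QQ n := by
  unfold rr QQ
  have : KK n + 2 ≤ (2 * KK n + 2).factorial := (Nat.self_le_factorial _).trans' (by omega)
  exact_mod_cast this

/-- the windows around the centre of the residue class contain no primes -/
lemma comp {n : ℕ} {w : ℤ} (h1 : w % QQ n = rr n % QQ n) (h2 : QQ n + rr n < w) {p : ℕ} (hp : p.Prime) :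
    (KK n : ℤ) < |w - p| := by
  by_contra hc
  push Not at hc
  rw [abs_le] at hc
  obtain ⟨t, ht⟩ : QQ n ∣ w - rr n := Int.ModEq.dvd (show rr n ≡ w [ZMOD QQ n] from h1.symm)
  -- `w = rr + QQ t`
  obtain ⟨e, he⟩ : ∃ e : ℕ, (e : ℤ) = (p : ℤ) - QQ n * t := by
    refine ⟨((p : ℤ) - QQ n * t).toNat, Int.toNat_of_nonneg ?_⟩
    have : rr n = KK n + 2 := rfl
    linarith
  have hr : rr n = KK n + 2 := rfl
  have he1 : 2 ≤ e := by
    have : (2 : ℤ) ≤ e := by rw [he]; linarith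
    exact_mod_cast this
  have he2 : e ≤ 2 * KK n + 2 := by
    have : (e : ℤ) ≤ 2 * KK n + 2 := by rw [he]; linarith
    exact_mod_cast this
  have hd : (e : ℤ) ∣ QQ n := by
    unfold QQ
    exact_mod_cast Nat.dvd_factorial (by omega) he2
  have hd2 : (e : ℤ) ∣ p := by
    have : (p : ℤ) = QQ n * t + e := by rw [he]; ring
    rw [this]
    exact dvd_add (hd.mul_right t) (dvd_refl _)
  have hd3 : e ∣ p := by exact_mod_cast hd2
  rcases (Nat.dvd_prime hp).1 hd3 with h | h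
  · omega
  · have h4 : QQ n * t = 0 := by
      have : (e : ℤ) = p := by exact_mod_cast h
      linarith
    have h5 : QQ n * t = w - rr n := ht.symm
    have h6 := QQ_two n
    linarith

lemma cel_pow {n : ℕ} (hn : 0 < n) {w : ℤ} (hw : 1 ≤ w) {x : ℝ} (hx : x ∈ cel n w) :
    (w : ℝ) ≤ ((n : ℝ) + x) ^ n ∧ ((n : ℝ) + x) ^ n ≤ w + 1 := by
  have hw' : (1 : ℝ) ≤ w := by exact_mod_cast hw
  have h1 : (w : ℝ) ^ (1 / (n : ℝ)) ≤ n + x := by linarith [hx.1]
  have h2 : (n : ℝ) + x ≤ ((w : ℝ) + 1) ^ (1 / (n : ℝ)) := by linarith [hx.2]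
  have h0 : 0 ≤ (w : ℝ) ^ (1 / (n : ℝ)) := Real.rpow_nonneg (by linarith) _
  have e1 : ((w : ℝ) ^ (1 / (n : ℝ))) ^ n = w := by
    rw [one_div, Real.rpow_inv_natCast_pow (by linarith) hn.ne']
  have e2 : (((w : ℝ) + 1) ^ (1 / (n : ℝ))) ^ n = w + 1 := by
    rw [one_div, Real.rpow_inv_natCast_pow (by linarith) hn.ne']
  constructor
  · rw [← e1]
    exact pow_le_pow_left₀ h0 h1 n
  · rw [← e2]
    exact pow_le_pow_left₀ (h0.trans h1) h2 n

lemma cel_nonempty {n : ℕ} {w : ℤ} (hw : 1 ≤ w) : (cel n w).Nonempty := by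
  have hw' : (1 : ℝ) ≤ w := by exact_mod_cast hw
  refine Set.nonempty_Icc.2 ?_
  have : (w : ℝ) ^ (1 / (n : ℝ)) ≤ ((w : ℝ) + 1) ^ (1 / (n : ℝ)) :=
    Real.rpow_le_rpow (by linarith) (by linarith) (by positivity)
  linarith

/-- the distance of `(n + θ)^n` to the nearest prime tends to infinity -/
def Far : Set ℝ := {θ : ℝ | ∀ K : ℕ, ∀ᶠ n : ℕ in atTop, ∀ p : ℕ, p.Prime → (K : ℝ) < |((n : ℝ) + θ) ^ n - p|}

theorem far (H1 : S_CAN) (H2 : S_CEL) (H3 : S_NUM) (a b : ℝ) (hab : a < b) : dimH (Far ∩ Set.Ioo a b) = 1 := by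
  refine le_antisymm ((dimH_mono (Set.subset_univ _)).trans_eq Real.dimH_univ) ?_
  have key : ∀ s : ℝ, 0 < s → s < 1 → ENNReal.ofReal s ≤ dimH (Far ∩ Set.Ioo a b) := by
    intro s hs0 hs1
    obtain ⟨A, hA⟩ : ∃ A, A = a + (b - a) / 3 := ⟨_, rfl⟩
    obtain ⟨B, hB⟩ : ∃ B, B = a + 2 * (b - a) / 3 := ⟨_, rfl⟩
    have hAB : A < B := by rw [hA, hB]; linarith
    obtain ⟨N₀, hN₀2, hroot, hch⟩ := H2 A B QQ rr mm hAB QQ_two
    obtain ⟨N₁, hN₁, hnum⟩ := H3
    obtain ⟨N₂, hN₂⟩ := exists_nat_gt |B|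
    obtain ⟨N, hN⟩ : ∃ N, N = max (max N₀ N₁) (max N₂ 4) := ⟨_, rfl⟩
    have hNN0 : N₀ ≤ N := by omega
    have hNN1 : N₁ ≤ N := by omega
    have hNB : 0 ≤ (N : ℝ) + B := by
      have h1 : (N₂ : ℝ) ≤ N := by exact_mod_cast (by omega : N₂ ≤ N)
      have h2 := neg_abs_le B
      linarith
    obtain ⟨w₀, hw₀⟩ := hroot N hNN0
    obtain ⟨c, hc0, hc⟩ := hnum s B N hs0 hs1 hNN1 hNB
    have h4 := H1 s hs0 hs1 (fun j => mm (N + j))
      (fun j => (QQ (N + j + 1) / (2 * (((N + j : ℕ) + 1) * (((N + j : ℕ) : ℝ) + 1 + B) ^ (N + j)))))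
      (fun j w => WW A B (N + j) w ∧ (0 < j → w % QQ (N + j) = rr (N + j) % QQ (N + j) ∧
        (((N + j - 1 : ℕ) : ℝ)) ^ (N + j - 1) ≤ w))
      (fun j w => cel (N + j) w) (fun j w i => TT QQ rr (N + j) w i) w₀ c
      (fun j => (hN₁ (N + j) (by omega)).1) ?_ hc0 ⟨hw₀, fun h => absurd h (lt_irrefl _)⟩ ?_ ?_ ?_ hc
    · refine h4.trans (dimH_mono ?_)
      rintro x ⟨w, hw0, hw⟩
      have hx0 : x ∈ Set.Icc A B := (hw 0).1.1.2 (hw 0).2
      refine ⟨fun K => ?_, by rw [hA] at hx0; linarith [hx0.1], by rw [hB] at hx0; linarith [hx0.2]⟩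
      filter_upwards [tKK.eventually_ge_atTop (K + 1), eventually_ge_atTop (N + 1)] with n h1 h2 p hp
      obtain ⟨j, rfl⟩ : ∃ j, n = N + j := ⟨n - N, by omega⟩
      obtain ⟨⟨hww, hres⟩, hcel⟩ := hw j
      obtain ⟨hr1, hr2⟩ := hres (by omega)
      have hpw := cel_pow (by omega) hww.1 hcel
      -- size
      have hn4 : 4 ≤ N + j - 1 := by omega
      have hsz : QQ (N + j) + rr (N + j) < w j := by
        have h5 := (hN₁ (N + j - 1) (by omega)).2
        rw [show N + j - 1 + 1 = N + j by omega] at h5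
        have h6 : (1 : ℝ) ≤ (mm (N + j - 1) : ℝ) := by
          have := (hN₁ (N + j - 1) (by omega)).1
          exact_mod_cast (by omega : 1 ≤ mm (N + j - 1))
        have h7 : (2 : ℝ) ≤ QQ (N + j) := by exact_mod_cast QQ_two (N + j)
        have h8 : (rr (N + j) : ℝ) ≤ QQ (N + j) := by exact_mod_cast rr_le (N + j)
        have h9 : (4 : ℝ) ≤ ((N + j - 1 : ℕ) : ℝ) := by exact_mod_cast hn4
        have h10 : ((N + j - 1 : ℕ) : ℝ) < ((N + j - 1 : ℕ) : ℝ) ^ (N + j - 1) := by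
          calc ((N + j - 1 : ℕ) : ℝ) = ((N + j - 1 : ℕ) : ℝ) ^ 1 := (pow_one _).symm
            _ < _ := pow_lt_pow_right₀ (by linarith) (by omega)
        have h11 : ((QQ (N + j) + rr (N + j) : ℤ) : ℝ) < (w j : ℝ) := by
          push_cast
          nlinarith
        exact_mod_cast h11
      have hcomp := comp hr1 hsz hp
      have h12 : ((KK (N + j) : ℤ) : ℝ) + 1 ≤ |((w j : ℤ) : ℝ) - p| := by
        have : (KK (N + j) : ℤ) + 1 ≤ |w j - p| := hcomp
        have h13 : (((KK (N + j) : ℤ) + 1 : ℤ) : ℝ) ≤ ((|w j - p| : ℤ) : ℝ) := by exact_mod_cast this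
        push_cast at h13
        push_cast
        exact h13
      have h14 : ((K : ℝ) + 1) ≤ KK (N + j) := by exact_mod_cast h1
      have h15 : |((w j : ℤ) : ℝ) - p| ≤ |(((N + j : ℕ) : ℝ) + x) ^ (N + j) - p| + 1 := by
        have e : ((w j : ℤ) : ℝ) - p = ((((N + j : ℕ) : ℝ) + x) ^ (N + j) - p) +
          (((w j : ℤ) : ℝ) - (((N + j : ℕ) : ℝ) + x) ^ (N + j)) := by ring
        rw [e]
        refine (abs_add_le _ _).trans ?_
        have : |((w j : ℤ) : ℝ) - (((N + j : ℕ) : ℝ) + x) ^ (N + j)| ≤ 1 := by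
          rw [abs_le]
          constructor <;> linarith [hpw.1, hpw.2]
        linarith
      push_cast at h12
      linarith
    · intro j
      have h1 : (0 : ℝ) < QQ (N + j + 1) := by
        have := QQ_two (N + j + 1)
        exact_mod_cast (by omega : 0 < QQ (N + j + 1))
      have h2 : (0 : ℝ) < ((N + j : ℕ) : ℝ) + 1 + B := by
        push_cast
        have : (0 : ℝ) ≤ j := by positivity
        linarith
      positivity
    · intro j w hw
      exact ⟨cel_nonempty hw.1.1, isCompact_Icc⟩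
    · intro j w i hw hi
      have hj := hch (N + j) (by omega) (hN₁ (N + j) (by omega)).2 w i hw.1 hi
      refine ⟨⟨hj.1, fun _ => ⟨hj.2.2.1, ?_⟩⟩, hj.2.1⟩
      exact hj.2.2.2.1
    · intro j w i i' hw hi hi' x hx y hy
      have hj := hch (N + j) (by omega) (hN₁ (N + j) (by omega)).2 w i hw.1 (by omega)
      exact hj.2.2.2.2 i' hi hi' x hx y hy
  refine le_of_forall_lt fun t ht => ?_
  obtain ⟨s, hs⟩ : ∃ s, s = (t.toReal + 1) / 2 := ⟨_, rfl⟩
  have ht' : t ≠ ⊤ := (ht.trans ENNReal.one_lt_top).ne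
  have h1 : t.toReal < 1 := by
    have := (ENNReal.toReal_lt_toReal ht' ENNReal.one_ne_top).2 ht
    simpa using this
  have h0 : 0 ≤ t.toReal := ENNReal.toReal_nonneg
  refine lt_of_lt_of_le ?_ (key s (by linarith) (by linarith))
  rw [← ENNReal.ofReal_toReal ht']
  exact (ENNReal.ofReal_lt_ofReal_iff (by linarith)).2 (by linarith)

end Pool.Agent.Helper2.NNF
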