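import Pool.Agent.Helper2.NNQ.FarAsm
import Pool.Agent.Helper19.NNF.CAN
import Pool.Agent.Helper61A.NNF.CEL
import Pool.Agent.Helper32.NNF.NUM

/-!
# Parameters `θ` with `(n + θ)^n` far from all primes
-/

set_option autoImplicit false

open MeasureTheory Filter Topology Finset

namespace Pool.Agent.Helper2.NNF

theorem farFin (a b : ℝ) (hab : a < b) :
    dimH ({θ : ℝ | ∀ K : ℕ, ∀ᶠ n : ℕ in atTop, ∀ p : ℕ, p.Prime → (K : ℝ) < |((n : ℝ) + θ) ^ n - p|} ∩
      Set.Ioo a b) = 1 :=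
  far Helper19.NNF.t_CAN Helper61A.NNF.t_CEL Helper32.NNF.t_NUM a b hab

end Pool.Agent.Helper2.NNF
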