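import Mathlib

/-!
# Parameters `θ` with `(n + θ)^n` far from all primes: statements of the parts (MP_a70bdc_nt)
-/

set_option autoImplicit false

open MeasureTheory Filter Topology Finset

namespace Pool.Agent.Helper2.NNF

/-- CAN: a homogeneous Cantor set.  For `y ∈ [0,1)` put `y_0 = y`, `d_j = ⌊m_j y_j⌋`, `y_{j+1} = m_j y_j - d_j ∈ [0,1)`,
`w_0 = w₀`, `w_{j+1} = T j w_j d_j`, and choose `x(y)` in the intersection of the nested nonempty compact sets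
`Ce j w_j`.  If `y ≠ y'` let `j` be the first index with `d_j ≠ d'_j` (it exists, since equal digits up to `j` give
`|y - y'| ≤ 1 / (m_0 ⋯ m_j)`).  Then `|y - y'| ≤ (|d_j - d'_j| + 1) / (m_0 ⋯ m_j) ≤ 2 |d_j - d'_j| / (m_0 ⋯ m_j)`, and
`|x - x'|^s ≥ (|d_j - d'_j| ε_j)^s ≥ (|d_j - d'_j| / m_j) (m_j ε_j)^s ≥ c |d_j - d'_j| / (m_0 ⋯ m_j)`, so
`|y - y'| ≤ (2 / c) |x - x'|^s`: the inverse map of `x` is `s`-Hölder on the image, and `dimH [0,1) = 1`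
(`HolderOnWith.dimH_image_le`; compare `dim_lower` in `Pool/Agent/H278R3/BMLower.lean` of the starting files). -/
def S_CAN : Prop := ∀ (s : ℝ), 0 < s → s < 1 → ∀ (m : ℕ → ℕ) (ε : ℕ → ℝ) (W : ℕ → ℤ → Prop) (Ce : ℕ → ℤ → Set ℝ)
  (T : ℕ → ℤ → ℕ → ℤ) (w₀ : ℤ) (c : ℝ), (∀ j, 2 ≤ m j) → (∀ j, 0 < ε j) → 0 < c → W 0 w₀ →
  (∀ j w, W j w → (Ce j w).Nonempty ∧ IsCompact (Ce j w)) →
  (∀ j w i, W j w → i < m j → W (j + 1) (T j w i) ∧ Ce (j + 1) (T j w i) ⊆ Ce j w) →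
  (∀ j w i i', W j w → i < i' → i' < m j → ∀ x ∈ Ce (j + 1) (T j w i), ∀ y ∈ Ce (j + 1) (T j w i'),
    ((i' : ℝ) - i) * ε j ≤ |x - y|) →
  (∀ j, c ≤ (∏ l ∈ range j, (m l : ℝ)) * (m j * ε j) ^ s) →
  ENNReal.ofReal s ≤ dimH {x : ℝ | ∃ w : ℕ → ℤ, w 0 = w₀ ∧ ∀ j, W j (w j) ∧ x ∈ Ce j (w j)}

/-- the cell of the integer `w` at the level `n`: the `θ ≥ -n` with `w ≤ (n + θ)^n ≤ w + 1` -/
noncomputable def cel (n : ℕ) (w : ℤ) : Set ℝ :=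
  Set.Icc ((w : ℝ) ^ (1 / (n : ℝ)) - n) (((w : ℝ) + 1) ^ (1 / (n : ℝ)) - n)

/-- admissible cells of the level `n` inside `[A,B]` -/
def WW (A B : ℝ) (n : ℕ) (w : ℤ) : Prop :=
  1 ≤ w ∧ cel n w ⊆ Set.Icc A B

/-- the `i`-th child: the `i`-th integer `≥ (n + 1 + α)^(n+1)`, `α = w^(1/n) - n`, congruent to `r` modulo `Q` -/
noncomputable def TT (Q r : ℕ → ℤ) (n : ℕ) (w : ℤ) (i : ℕ) : ℤ :=
  ⌈((w : ℝ) ^ (1 / (n : ℝ)) + 1) ^ (n + 1)⌉ +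
    (r (n + 1) - ⌈((w : ℝ) ^ (1 / (n : ℝ)) + 1) ^ (n + 1)⌉) % Q (n + 1) + i * Q (n + 1)

/-- CEL: the children.  Put `u = w^(1/n)`, `v = (w+1)^(1/n)`, so `u^n = w`, `v^n = w + 1`, `u ≥ n + A`, `v ≤ n + B`.
`(v+1)^(n+1) - (u+1)^(n+1) ≥ (n+1) (u+1)^n (v-u)`, `1 = v^n - u^n ≤ n v^(n-1) (v - u)` and `v ≤ u + 1`, so the difference is at
least `(u+1)^n / v^(n-1) ≥ v ≥ n + A ≥ n / 2 + 2` for large `n`.  So the children `w' = TT n w i` satisfy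
`(u+1)^(n+1) ≤ w'` and `w' + 1 ≤ (u+1)^(n+1) + 1 + Q + i Q + 1 ≤ (v+1)^(n+1)`, that is, `cel (n+1) w' ⊆ cel n w`
(`w'^(1/(n+1)) ≥ u + 1`).  Separation: for `x, y` in the two cells `(n+1+y)^(n+1) - (n+1+x)^(n+1) ≥ (i' - i) Q - 1 ≥
(i' - i) Q / 2` and the left side is at most `(n+1) (n+1+B)^n (y - x)`. -/
def S_CEL : Prop := ∀ (A B : ℝ) (Q r : ℕ → ℤ) (m : ℕ → ℕ), A < B → (∀ n, 2 ≤ Q n) → ∃ N₀ : ℕ, 2 ≤ N₀ ∧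
  (∀ n : ℕ, N₀ ≤ n → ∃ w₀ : ℤ, WW A B n w₀) ∧
  (∀ n : ℕ, N₀ ≤ n → (m n + 1) * Q (n + 1) ≤ (n : ℝ) / 2 → ∀ (w : ℤ) (i : ℕ), WW A B n w → i < m n →
    WW A B (n + 1) (TT Q r n w i) ∧ cel (n + 1) (TT Q r n w i) ⊆ cel n w ∧
    TT Q r n w i % Q (n + 1) = r (n + 1) % Q (n + 1) ∧ (n : ℝ) ^ n ≤ TT Q r n w i ∧
    ∀ i' : ℕ, i < i' → i' < m n → ∀ x ∈ cel (n + 1) (TT Q r n w i), ∀ y ∈ cel (n + 1) (TT Q r n w i'),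
      ((i' : ℝ) - i) * (Q (n + 1) / (2 * ((n + 1) * ((n : ℝ) + 1 + B) ^ n))) ≤ |x - y|)

/-- the half length of the prime free windows -/
def KK (n : ℕ) : ℕ := Nat.log 2 (Nat.log 2 n)

/-- the modulus -/
def QQ (n : ℕ) : ℤ := ((2 * KK n + 2).factorial : ℤ)

/-- the residue -/
def rr (n : ℕ) : ℤ := (KK n : ℤ) + 2

/-- the number of children -/
def mm (n : ℕ) : ℕ := n / (4 * (2 * KK (n + 1) + 2).factorial)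

/-- NUM: the numerical conditions.  `log ((2 K + 2)!) ≤ (2 K + 2) log (2 K + 2) = o(log n)` for `K = KK n`; the
logarithm of the product is at least `∑_{l < j} (log (N+l) - log (8 QQ)) - s n log (n + 1 + B) - C → ∞`, `n = N + j`. -/
def S_NUM : Prop := ∃ N₁ : ℕ, (∀ n : ℕ, N₁ ≤ n → 2 ≤ mm n ∧ (mm n + 1) * QQ (n + 1) ≤ (n : ℝ) / 2) ∧
  ∀ (s B : ℝ) (N : ℕ), 0 < s → s < 1 → N₁ ≤ N → 0 ≤ (N : ℝ) + B → ∃ c : ℝ, 0 < c ∧ ∀ j : ℕ,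
    c ≤ (∏ l ∈ range j, (mm (N + l) : ℝ)) *
      (mm (N + j) * (QQ (N + j + 1) / (2 * (((N + j : ℕ) + 1) * (((N + j : ℕ) : ℝ) + 1 + B) ^ (N + j))))) ^ s

end Pool.Agent.Helper2.NNF
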