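import Mathlib

/-!
# Primes `⌊(n + θ)^n⌋ + k` and `⌊n^(n + θ)⌋ + k` for almost all `θ` (MP_a70bdc_nt): statements of the parts

`f = exp ∘ g`; `g` is increasing with slope between `σ` and `2 σ`.
-/

set_option autoImplicit false

open MeasureTheory Filter Topology Finset
open scoped Real

namespace Pool.Agent.Helper2.NNQ

/-- `g` has slopes between `σ` and `2 σ` on `[A,B]` -/
structure Reg (g : ℝ → ℝ) (σ A B : ℝ) : Prop where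
  pos : 0 < σ
  lo : ∀ x y, A ≤ x → x ≤ y → y ≤ B → σ * (y - x) ≤ g y - g x
  hi : ∀ x y, A ≤ x → x ≤ y → y ≤ B → g y - g x ≤ 2 * σ * (y - x)

/-- the parameters for which `⌊exp (g x)⌋ + k` is prime -/
def PP (g : ℝ → ℝ) (k : ℤ) : Set ℝ := {x | (⌊Real.exp (g x)⌋ + k).toNat.Prime}

/-- BTN: the theorem of Brun and Titchmarsh for intervals of integers. In the starting files:
`Pool/Agent/Helper602/MK/J3.lean` (`brun_titchmarsh`, all moduli) or `Pool/Agent/Helper601/BT.lean`; take `q = 1`.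
(If `v < 0` only the part in `[0, v + N]` matters.) -/
def S_BTN : Prop := ∃ C : ℝ, 1 ≤ C ∧ ∀ (v : ℤ) (N : ℕ), 2 ≤ N →
  (((Finset.Icc v (v + N)).filter (fun q : ℤ => q.toNat.Prime)).card : ℝ) ≤ C * N / Real.log N

/-- CORE: a short interval.  Put `D = σ (b - a) f(a)` with `f = exp ∘ g` and `δ = 1 / (σ f(a)) = (b - a) / D`.
Proof: `f(b) - f(a) ≤ f(a) (exp(2 σ (b-a)) - 1) ≤ 15 D`, so with `v₀ = ⌊f(a)⌋` every value `⌊f(x)⌋ + k` lies in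
`[v₀ + k, v₀ + k + N]`, `N = ⌈15 D⌉ + 1 ≤ 17 D`: BTN bounds the number of prime values `v + k` by `C' D / log D`.
For each value `v` the set `{x ∈ [a,b] : ⌊f x⌋ = v}` has diameter at most `δ` (if `x < y` then
`1 > f(y) - f(x) ≥ f(x) (exp(σ (y-x)) - 1) ≥ f(a) σ (y - x)`), so it lies in `[t, t + δ]` with
`t = min (its infimum) (b - δ)`. -/
def S_CORE : Prop := ∃ C : ℝ, 0 < C ∧ ∀ (k : ℤ) (g : ℝ → ℝ) (σ a b : ℝ), Reg g σ a b → a < b → σ * (b - a) ≤ 1 →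
  2 ≤ σ * (b - a) * Real.exp (g a) → ∃ T : Finset ℝ,
    (T.card : ℝ) ≤ C * (σ * (b - a) * Real.exp (g a)) / Real.log (σ * (b - a) * Real.exp (g a)) ∧
    (∀ t ∈ T, a ≤ t ∧ t + 1 / (σ * Real.exp (g a)) ≤ b) ∧
    PP g k ∩ Set.Icc a b ⊆ ⋃ t ∈ T, Set.Icc t (t + 1 / (σ * Real.exp (g a)))

/-- COVER: any interval.  If `σ (b - a) ≤ 1` this is CORE with pairs `(t, a)`.  Otherwise cut `[a,b]` into
`K = ⌈σ (b - a)⌉` equal parts `[a_j, b_j]` of length `h'`, `1/2 ≤ σ h' ≤ 1`, and apply CORE to each; the pairs are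
`(t, a_j)`; `D_j = σ h' f(a_j) ≥ f(a) / 2`, `log D_j ≥ log (f(a) / 2) ≥ (log f(a)) / 2` as `f(a) ≥ 4`. -/
def S_COVER : Prop := ∃ C : ℝ, 0 < C ∧ ∀ (k : ℤ) (g : ℝ → ℝ) (σ a b : ℝ), Reg g σ a b → a < b →
  4 ≤ min 1 (σ * (b - a)) * Real.exp (g a) → ∃ T : Finset (ℝ × ℝ),
    (∀ p ∈ T, a ≤ p.2 ∧ p.2 ≤ p.1 ∧ p.1 + 1 / (σ * Real.exp (g p.2)) ≤ b) ∧
    PP g k ∩ Set.Icc a b ⊆ ⋃ p ∈ T, Set.Icc p.1 (p.1 + 1 / (σ * Real.exp (g p.2))) ∧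
    ∑ p ∈ T, 1 / (σ * Real.exp (g p.2)) ≤ C * (b - a) / Real.log (min 1 (σ * (b - a)) * Real.exp (g a))

/-- the families -/
structure Good (g : ℕ → ℝ → ℝ) (σ : ℕ → ℝ) (A B : ℝ) : Prop where
  lt : A < B
  ev : ∃ n₀ : ℕ, 3 ≤ n₀ ∧ (∀ n : ℕ, n₀ ≤ n → Reg (g n) (σ n) A B ∧ 1 / 2 ≤ σ n ∧ ∀ x ∈ Set.Icc A B,
      1 / 2 * ((n : ℝ) * Real.log n) ≤ g n x ∧ g n x ≤ 2 * ((n : ℝ) * Real.log n)) ∧
    ∀ m n : ℕ, n₀ ≤ m → m < n → σ m ≤ 2 * σ n ∧ ∀ x ∈ Set.Icc A B,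
      1 / 2 * (((n : ℝ) - m) * Real.log n) ≤ g n x - g m x

/-- U1: upper bound of the measure, from COVER (measure of the union `≤ Σ δ`); for large `n`
`log (min 1 (σ (B-A)) exp (g n A)) ≥ (n log n) / 4`, since `min 1 (σ (B-A)) ≥ min 1 ((B-A)/2)` is bounded below. -/
def S_U1 : Prop := ∃ C : ℝ, 0 < C ∧ ∀ (k : ℤ) (g : ℕ → ℝ → ℝ) (σ : ℕ → ℝ) (A B : ℝ), Good g σ A B →
  ∃ n₀ : ℕ, ∀ n, n₀ ≤ n → volume.real (PP (g n) k ∩ Set.Icc A B) ≤ C * (B - A) * (1 / ((n : ℝ) * Real.log n))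

/-- U2: upper bound of the measure of the intersections, from COVER twice: cover `PP (g m) k ∩ [A,B]` by the
intervals `[t, t + δ]`, `δ = 1 / (σ_m exp (g_m a'))`, `a' ≤ t`, and bound the measure of `PP (g n) k ∩ [t, t+δ]` by COVER for
`g n` on `[t, t + δ]`: it is at most `C δ / log (min 1 (σ_n δ) exp (g_n t))`, and `min 1 (σ_n δ) exp (g_n t) ≥
min (exp (g_n a')) ((1/2) exp (g_n a' - g_m a'))`, whose logarithm is at least `((n - m) log n) / 4` for large `n`. -/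
def S_U2 : Prop := ∃ C : ℝ, 0 < C ∧ ∀ (k : ℤ) (g : ℕ → ℝ → ℝ) (σ : ℕ → ℝ) (A B : ℝ), Good g σ A B →
  ∃ n₀ : ℕ, ∀ m n, n₀ ≤ m → m < n → volume.real (PP (g m) k ∩ PP (g n) k ∩ Set.Icc A B) ≤
    C * (B - A) * (1 / (((m : ℝ) * Real.log m) * (((n : ℝ) - m) * Real.log n)))

/-- PNTL: primes in `[Y, λ Y]`, from the prime number theorem (`Pool/Agent/Cov/PNT.lean` or
`Pool/Agent/H325R2/PPPnt.lean` in the starting files), uniformly for `1 + τ ≤ lam ≤ 3` -/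
def S_PNTL : Prop := ∀ (τ : ℝ) (k : ℤ), 0 < τ → ∃ Y₀ : ℝ, ∀ Y lam : ℝ, Y₀ ≤ Y → 1 + τ ≤ lam → lam ≤ 3 →
  1 / 2 * (lam - 1) * Y / Real.log Y ≤
    ({v : ℤ | Y ≤ v ∧ (v : ℝ) + 1 ≤ lam * Y ∧ (v + k).toNat.Prime}.ncard : ℝ)

/-- LP: lower bound of the measure, from PNTL.  Short interval, `τ ≤ σ h ≤ 1`, `h = b - a`: put `Y = f(a)`,
`lam = exp (σ h) ∈ [1 + τ, 3]`, `f(b) ≥ lam Y`.  For each integer `v` of PNTL the set `{x ∈ [a,b] : ⌊f x⌋ = v}`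
contains `[a_v, b_v)` with `f(a_v) = v`, `f(b_v) = v + 1` (continuity: `g` is Lipschitz), and
`1 / (v+1) ≤ log (1 + 1/v) = g(b_v) - g(a_v) ≤ 2 σ (b_v - a_v)`, so its length is `≥ 1 / (2 σ (v+1)) ≥ 1 / (2 σ lam Y)`;
these sets are disjoint: measure `≥ (lam - 1) / (4 σ lam log Y) ≥ h / (12 log Y)`.  Long interval `σ h > 1`: cut into
`⌈σ h⌉` equal parts with `1/2 ≤ σ h' ≤ 1`. -/
def S_LP : Prop := ∃ c : ℝ, 0 < c ∧ ∀ (τ : ℝ) (k : ℤ), 0 < τ → ∃ Y₀ : ℝ, ∀ (g : ℝ → ℝ) (σ a b : ℝ),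
  Reg g σ a b → a < b → τ ≤ σ * (b - a) → Y₀ ≤ g a → c * (b - a) / g b ≤ volume.real (PP g k ∩ Set.Icc a b)

/-- the weights `1 / (n log n)` restricted to `S` -/
noncomputable def wt (S : Set ℕ) (n : ℕ) : ℝ := S.indicator (fun n : ℕ => 1 / ((n : ℝ) * Real.log n)) n

/-- the weights of the pairs -/
noncomputable def wp (S : Set ℕ) (m n : ℕ) : ℝ := open Classical in
  if 3 ≤ m ∧ m < n ∧ m ∈ S ∧ n ∈ S then 1 / (((m : ℝ) * Real.log m) * (((n : ℝ) - m) * Real.log n)) else 0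

/-- COMB: for `n ≤ 2 m`: `Σ_n 1 / ((n-m) log n) ≤ (1 + log m) / log m ≤ 2`; for `n > 2 m`: `1 / (n-m) ≤ 2 / n` -/
def S_COMB : Prop := ∃ C : ℝ, 0 < C ∧ ∀ (S : Set ℕ) (N : ℕ),
  ∑ n ∈ range N, ∑ m ∈ range n, wp S m n ≤ C * (1 + ∑ n ∈ range N, wt S n) ^ 2

/-- KS2: the lemma of Borel and Cantelli for sets quasi-independent on average, with Lebesgue's density theorem
(adapt `Pool/Agent/Helper61A/NNP/KS.lean`) -/
def S_KS2 : Prop := ∀ (E : ℕ → Set ℝ) (w : ℕ → ℝ) (p : ℕ → ℕ → ℝ) (c C C' : ℝ), 0 < c → 0 < C → 0 < C' →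
  (∀ n, MeasurableSet (E n)) → (∀ n, 0 ≤ w n) → ¬ Summable w → (∀ m n, 0 ≤ p m n) →
  (∀ N : ℕ, ∑ n ∈ range N, ∑ m ∈ range n, p m n ≤ C' * (1 + ∑ n ∈ range N, w n) ^ 2) →
  (∀ u : ℝ, ∃ r₀ : ℝ, 0 < r₀ ∧ ∀ r : ℝ, 0 < r → r < r₀ → ∃ n₀ : ℕ,
    (∀ n, n₀ ≤ n → c * (2 * r) * w n ≤ volume.real (E n ∩ Set.Icc (u - r) (u + r)) ∧
      volume.real (E n ∩ Set.Icc (u - r) (u + r)) ≤ C * (2 * r) * w n) ∧
    ∀ m n, n₀ ≤ m → m < n → volume.real (E m ∩ E n ∩ Set.Icc (u - r) (u + r)) ≤ C * (2 * r) * p m n) →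
  ∀ᵐ x : ℝ, ∃ᶠ n in atTop, x ∈ E n

/-- `(n + x)^n = exp (gA n x)` -/
noncomputable def gA (n : ℕ) (x : ℝ) : ℝ := n * Real.log (n + x)

/-- `n^(n + x) = exp (gB n x)` -/
noncomputable def gB (n : ℕ) (x : ℝ) : ℝ := (n + x) * Real.log n

/-- FAM2: the two families are good on short intervals. `gA`: slope `n / (n + x) → 1`;
`gA n x - gA m x ≥ (n - m) log (n + x)`.  `gB`: slope `log n`, `gB n x - gB m x ≥ (n - m) log n` if `m + x ≥ 0`. -/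
def S_FAM2 : Prop := ∀ u : ℝ, ∃ r₀ : ℝ, 0 < r₀ ∧ ∀ r : ℝ, 0 < r → r < r₀ →
  Good gA (fun _ => 2 / 3) (u - r) (u + r) ∧ Good gB (fun n => Real.log n) (u - r) (u + r)

end Pool.Agent.Helper2.NNQ
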