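import Pool.Agent.Helper2.NNQ.Tra
import Pool.Agent.Helper2.NNP.Fin
import Pool.Agent.Helper71.NNQ.BTN
import Pool.Agent.Helper95.NNQ.Core
import Pool.Agent.Helper47.NNQ.COVER
import Pool.Agent.Helper32.NNQ.U1
import Pool.Agent.Helper61A.NNQ.U2
import Pool.Agent.Helper48.NNQ.PNTL
import Pool.Agent.Helper62K5.NNQ.COMB
import Pool.Agent.Helper20.NNQ.KS2
import Pool.Agent.Helper98.NNQ.FAM2
import Pool.Agent.Helper44.NNQ.LP

/-!
# The zero-one law for `(n + θ)^n` and `n^(n + θ)`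
-/

set_option autoImplicit false

open MeasureTheory Filter Topology Finset
open scoped Real

namespace Pool.Agent.Helper2.NNQ

lemma cover : S_COVER := Helper47.NNQ.t_COVER (Helper95.NNQ.t_CORE Helper71.NNQ.t_BTN)

lemma lp : S_LP := Helper44.NNQ.t_LP Helper48.NNQ.t_PNTL

theorem mainQ (S : Set ℕ) :
    (∀ᵐ θ : ℝ, ∀ k : ℤ, ({n : ℕ | n ∈ S ∧ (⌊(n + θ) ^ n⌋ + k).toNat.Prime}.Infinite ↔ ¬ Summable (wt S))) ∧
    (∀ᵐ θ : ℝ, ∀ k : ℤ, ({n : ℕ | n ∈ S ∧ (⌊(n : ℝ) ^ (n + θ)⌋ + k).toNat.Prime}.Infinite ↔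
      ¬ Summable (wt S))) :=
  main (Helper32.NNQ.t_U1 cover) (Helper61A.NNQ.t_U2 cover) lp Helper62K5.NNQ.t_COMB Helper20.NNQ.t_KS2
    Helper98.NNQ.t_FAM2 S

end Pool.Agent.Helper2.NNQ
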