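import Pool.Agent.Helper2.NNQ.Fin
import Pool.Agent.Helper62K5.NNQ.DIM
import Pool.Agent.Helper19.NNQ.FF
import Pool.Agent.Helper88.NNQ.STEP

/-!
# Sparse sets: comeagre and of Hausdorff dimension one
-/

set_option autoImplicit false

open MeasureTheory Filter Topology Finset
open scoped Real

namespace Pool.Agent.Helper2.NNQ

theorem sparse (S : Set ℕ) (hS : S.Infinite) :
    (∀ᶠ θ : ℝ in residual ℝ, ∀ k : ℤ,
      {n : ℕ | n ∈ S ∧ (⌊(n + θ) ^ n⌋ + k).toNat.Prime}.Infinite) ∧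
    ∀ a b : ℝ, a < b → dimH ({θ : ℝ | ∀ k : ℤ,
      {n : ℕ | n ∈ S ∧ (⌊(n + θ) ^ n⌋ + k).toNat.Prime}.Infinite} ∩ Set.Ioo a b) = 1 := by
  refine ⟨?_, dimA Helper98.NNQ.t_FAM2
    (Helper62K5.NNQ.t_DIM (Helper88.NNQ.t_STEP (Helper19.NNQ.t_FF cover lp))) S hS⟩
  filter_upwards [genAB lp Helper98.NNQ.t_FAM2 S hS] with θ h k
  exact (h k).1

end Pool.Agent.Helper2.NNQ
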