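import Pool.Agent.Helper2.NNQ.Asm

/-!
# The topologically generic `θ`: infinitely many primes along every infinite set
-/

set_option autoImplicit false

open MeasureTheory Filter Topology Finset
open scoped Real

namespace Pool.Agent.Helper2.NNQ

lemma Reg.cont {g : ℝ → ℝ} {σ A B : ℝ} (hR : Reg g σ A B) {x : ℝ} (hx : x ∈ Set.Ioo A B) : ContinuousAt g x := by
  have hL : LipschitzOnWith (Real.toNNReal (2 * σ)) g (Set.Icc A B) := by
    refine LipschitzOnWith.of_dist_le_mul fun y hy z hz => ?_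
    have hs := hR.pos
    rw [Real.coe_toNNReal _ (by positivity), Real.dist_eq, Real.dist_eq]
    rcases le_total y z with h | h
    · have h1 := hR.lo y z hy.1 h hz.2
      have h2 := hR.hi y z hy.1 h hz.2
      have h3 : 0 ≤ σ * (z - y) := mul_nonneg hs.le (by linarith)
      rw [abs_of_nonpos (by linarith), abs_of_nonpos (by linarith)]
      linarith
    · have h1 := hR.lo z y hz.1 h hy.2
      have h2 := hR.hi z y hz.1 h hy.2
      have h3 : 0 ≤ σ * (y - z) := mul_nonneg hs.le (by linarith)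
      rw [abs_of_nonneg (by linarith), abs_of_nonneg (by linarith)]
      linarith
  exact hL.continuousOn.continuousAt (Icc_mem_nhds hx.1 hx.2)

lemma Reg.strict {g : ℝ → ℝ} {σ A B : ℝ} (hR : Reg g σ A B) {x y : ℝ} (hx : A ≤ x) (hxy : x < y) (hy : y ≤ B) :
    g x < g y := by
  have h1 := hR.lo x y hx hxy.le hy
  have : 0 < σ * (y - x) := mul_pos hR.pos (by linarith)
  linarith

lemma int_nonempty {g : ℝ → ℝ} {σ A B : ℝ} (hR : Reg g σ A B) (k : ℤ)
    (hpos : 0 < volume.real (PP g k ∩ Set.Icc A B)) : ∃ x, A < x ∧ x < B ∧ x ∈ interior (PP g k) := by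
  set Z : Set ℝ := (⋃ m : ℤ, {x | x ∈ Set.Icc A B ∧ Real.exp (g x) = m}) ∪ {A, B} with hZ
  have hZc : Z.Countable := by
    refine Set.Countable.union (Set.countable_iUnion fun m => ?_) (Set.toFinite _).countable
    refine Set.Subsingleton.countable ?_
    intro x hx y hy
    rcases lt_trichotomy x y with h | h | h
    · have := hR.strict hx.1.1 h hy.1.2
      have h2 := Real.exp_lt_exp.2 this
      rw [hx.2, hy.2] at h2
      exact absurd h2 (lt_irrefl _)
    · exact h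
    · have := hR.strict hy.1.1 h hx.1.2
      have h2 := Real.exp_lt_exp.2 this
      rw [hx.2, hy.2] at h2
      exact absurd h2 (lt_irrefl _)
  have hne : ∃ x, x ∈ PP g k ∩ Set.Icc A B ∧ x ∉ Z := by
    by_contra hcon
    push Not at hcon
    have h0 : volume (PP g k ∩ Set.Icc A B) = 0 := measure_mono_null hcon (hZc.measure_zero _)
    rw [measureReal_def, h0] at hpos
    simp at hpos
  obtain ⟨x, ⟨hxP, hxI⟩, hxZ⟩ := hne
  have hxA : x ≠ A := fun h => hxZ (Or.inr (Or.inl h))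
  have hxB : x ≠ B := fun h => hxZ (Or.inr (Or.inr h))
  have h1 : A < x := lt_of_le_of_ne hxI.1 (Ne.symm hxA)
  have h2 : x < B := lt_of_le_of_ne hxI.2 hxB
  refine ⟨x, h1, h2, ?_⟩
  rw [mem_interior_iff_mem_nhds]
  have hc : ContinuousAt (fun y => Real.exp (g y)) x := Real.continuous_exp.continuousAt.comp (hR.cont ⟨h1, h2⟩)
  have h3 : (⌊Real.exp (g x)⌋ : ℝ) < Real.exp (g x) := by
    refine lt_of_le_of_ne (Int.floor_le _) fun h => hxZ (Or.inl ?_)
    exact Set.mem_iUnion.2 ⟨⌊Real.exp (g x)⌋, hxI, h.symm⟩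
  have h4 : Real.exp (g x) < ⌊Real.exp (g x)⌋ + 1 := Int.lt_floor_add_one _
  filter_upwards [hc.eventually_mem (Ioo_mem_nhds h3 h4)] with y hy
  have h5 : ⌊Real.exp (g y)⌋ = ⌊Real.exp (g x)⌋ := Int.floor_eq_iff.2 ⟨hy.1.le, hy.2⟩
  show (⌊Real.exp (g y)⌋ + k).toNat.Prime
  rw [h5]
  exact hxP

lemma generic (H3 : S_LP) {g : ℕ → ℝ → ℝ} {σ : ℕ → ℝ} (hL : Loc g σ) (S : Set ℕ) (hS : S.Infinite) :
    ∀ᶠ x : ℝ in residual ℝ, ∀ k : ℤ, {n : ℕ | n ∈ S ∧ x ∈ PP (g n) k}.Infinite := by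
  obtain ⟨c, hc, h3⟩ := t_LG H3
  rw [eventually_countable_forall]
  intro k
  have h : ∀ᶠ x : ℝ in residual ℝ, ∀ N : ℕ, x ∈ ⋃ n ∈ {n : ℕ | N ≤ n ∧ n ∈ S}, interior (PP (g n) k) := by
    rw [eventually_countable_forall]
    intro N
    refine residual_of_dense_open (isOpen_biUnion fun n _ => isOpen_interior) ?_
    rw [dense_iff_inter_open]
    intro U hU hUne
    obtain ⟨u, hu⟩ := hUne
    obtain ⟨ε, hε, hball⟩ := Metric.isOpen_iff.1 hU u hu
    obtain ⟨r₀, hr₀, hr⟩ := hL u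
    have hr1 : 0 < min (r₀ / 2) (ε / 2) := lt_min (by linarith) (by linarith)
    have hr2 : min (r₀ / 2) (ε / 2) < r₀ := (min_le_left _ _).trans_lt (by linarith)
    have hr3 : min (r₀ / 2) (ε / 2) < ε := (min_le_right _ _).trans_lt (by linarith)
    have hG := hr _ hr1 hr2
    set r := min (r₀ / 2) (ε / 2) with hrdef
    obtain ⟨n1, hn1⟩ := h3 k g σ (u - r) (u + r) hG
    obtain ⟨n2, hn2, hev, -⟩ := hG.ev
    obtain ⟨n, hnS, hn⟩ := hS.exists_gt (max N (max n1 n2))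
    have hn' : N ≤ n ∧ n1 ≤ n ∧ n2 ≤ n := by omega
    have h4 := hn1 n hn'.2.1
    have h5 : (0 : ℝ) < c * ((u + r) - (u - r)) * (1 / ((n : ℝ) * Real.log n)) := by
      have h6 : (3 : ℝ) ≤ n := by exact_mod_cast (by omega : 3 ≤ n)
      have h7 : 0 < Real.log n := Real.log_pos (by linarith)
      have h8 : (0 : ℝ) < (u + r) - (u - r) := by linarith
      positivity
    obtain ⟨x, hx1, hx2, hx3⟩ := int_nonempty (hev n hn'.2.2).1 k (h5.trans_le h4)
    refine ⟨x, hball ?_, Set.mem_biUnion (show n ∈ {n : ℕ | N ≤ n ∧ n ∈ S} from ⟨hn'.1, hnS⟩) hx3⟩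
    rw [Metric.mem_ball, Real.dist_eq, abs_lt]
    constructor <;> linarith
  filter_upwards [h] with x hx
  rw [← Nat.frequently_atTop_iff_infinite, frequently_atTop]
  intro N
  obtain ⟨n, hn, hxn⟩ := Set.mem_iUnion₂.1 (hx N)
  exact ⟨n, hn.1, hn.2, interior_subset hxn⟩

end Pool.Agent.Helper2.NNQ
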