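import Pool.Agent.Helper2.NNQ.Gen
import Pool.Agent.Helper2.NNQ.DimStm

/-!
# Transfer to the families `(n + θ)^n` and `n^(n + θ)`
-/

set_option autoImplicit false

open MeasureTheory Filter Topology Finset
open scoped Real

namespace Pool.Agent.Helper2.NNQ

lemma iffA (S : Set ℕ) (θ : ℝ) (k : ℤ) : {n : ℕ | n ∈ S ∧ θ ∈ PP (gA n) k}.Infinite ↔
    {n : ℕ | n ∈ S ∧ (⌊(n + θ) ^ n⌋ + k).toNat.Prime}.Infinite := by
  obtain ⟨n₀, hn₀⟩ := exists_nat_gt (-θ)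
  refine inf_congr n₀ fun n hn => ?_
  have : (n₀ : ℝ) ≤ n := by exact_mod_cast hn
  show n ∈ S ∧ (⌊Real.exp (gA n θ)⌋ + k).toNat.Prime ↔ _
  rw [expA n θ (by linarith)]

lemma iffB (S : Set ℕ) (θ : ℝ) (k : ℤ) : {n : ℕ | n ∈ S ∧ θ ∈ PP (gB n) k}.Infinite ↔
    {n : ℕ | n ∈ S ∧ (⌊(n : ℝ) ^ (n + θ)⌋ + k).toNat.Prime}.Infinite := by
  refine inf_congr 1 fun n hn => ?_
  show n ∈ S ∧ (⌊Real.exp (gB n θ)⌋ + k).toNat.Prime ↔ _
  rw [expB n θ (by omega)]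

theorem genAB (H3 : S_LP) (H6 : S_FAM2) (S : Set ℕ) (hS : S.Infinite) :
    ∀ᶠ θ : ℝ in residual ℝ, ∀ k : ℤ,
      {n : ℕ | n ∈ S ∧ (⌊(n + θ) ^ n⌋ + k).toNat.Prime}.Infinite ∧
      {n : ℕ | n ∈ S ∧ (⌊(n : ℝ) ^ (n + θ)⌋ + k).toNat.Prime}.Infinite := by
  have hA : Loc gA (fun _ => 2 / 3) := fun u => by
    obtain ⟨r₀, hr₀, hr⟩ := H6 u
    exact ⟨r₀, hr₀, fun r h1 h2 => (hr r h1 h2).1⟩
  have hB : Loc gB (fun n => Real.log n) := fun u => by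
    obtain ⟨r₀, hr₀, hr⟩ := H6 u
    exact ⟨r₀, hr₀, fun r h1 h2 => (hr r h1 h2).2⟩
  filter_upwards [generic H3 hA S hS, generic H3 hB S hS] with θ h1 h2 k
  exact ⟨(iffA S θ k).1 (h1 k), (iffB S θ k).1 (h2 k)⟩

theorem dimA (H6 : S_FAM2) (H7 : S_DIM) (S : Set ℕ) (hS : S.Infinite) (a b : ℝ) (hab : a < b) :
    dimH ({θ : ℝ | ∀ k : ℤ, {n : ℕ | n ∈ S ∧ (⌊(n + θ) ^ n⌋ + k).toNat.Prime}.Infinite} ∩ Set.Ioo a b) = 1 := by
  rw [← H7 gA (fun u => ?_) S hS a b hab]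
  · congr 2
    ext θ
    exact forall_congr' fun k => (iffA S θ k).symm
  · obtain ⟨r₀, hr₀, hr⟩ := H6 u
    exact ⟨r₀, hr₀, fun r h1 h2 => (hr r h1 h2).1⟩

lemma pow2_summable : Summable (wt {n : ℕ | ∃ j : ℕ, n = 2 ^ j}) := by
  unfold wt
  have hinj : Function.Injective (fun j : ℕ => 2 ^ j) := Nat.pow_right_injective le_rfl
  rw [← hinj.summable_iff]
  · refine Summable.of_norm_bounded_eventually_nat (g := fun j : ℕ => 2 * (1 / 2 : ℝ) ^ j)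
      ((summable_geometric_of_lt_one (by norm_num) (by norm_num)).mul_left 2) ?_
    filter_upwards [Filter.eventually_ge_atTop 1] with j hj
    have hm : (2 ^ j : ℕ) ∈ ({n : ℕ | ∃ j : ℕ, n = 2 ^ j} : Set ℕ) := ⟨j, rfl⟩
    simp only [Function.comp_apply, Set.indicator_of_mem hm]
    push_cast
    rw [Real.log_pow]
    have h2 : (1 / 2 : ℝ) ≤ Real.log 2 := by
      have := Real.log_two_gt_d9
      linarith
    have hj1 : (1 : ℝ) ≤ j := by exact_mod_cast hj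
    have h3 : (1 / 2 : ℝ) ≤ j * Real.log 2 := by nlinarith
    have h4 : (0 : ℝ) < 2 ^ j := by positivity
    rw [Real.norm_of_nonneg (by positivity), one_div_pow, mul_one_div, div_le_div_iff₀ (by positivity) h4]
    nlinarith
  · intro n hn
    refine Set.indicator_of_notMem ?_ _
    rintro ⟨j, rfl⟩
    exact hn ⟨j, rfl⟩

end Pool.Agent.Helper2.NNQ
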